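import Pool.Agent.Helper51.DO.E6c

/-! # E6: the contraction with the Euler class -/

namespace Pool.Agent.Helper67.DO

open scoped BigOperators Real Topology
open MeasureTheory

noncomputable section

/-- constant part of `(x, x, v)` -/
def e6_g {q : ℕ} (x : ℝ) : Fin (q + 2) → ℂ := Fin.cons (x : ℂ) (Fin.cons (x : ℂ) (0 : Fin q → ℂ) : Fin (q + 1) → ℂ)

/-- `v ↦ (0, v)` -/
def e6_L1 {q : ℕ} : (Fin q → ℂ) →L[ℂ] (Fin (q + 1) → ℂ) :=
  ContinuousLinearMap.pi fun i => Fin.cases 0 (fun j => ContinuousLinearMap.proj j) i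

theorem e6_L1_apply {q : ℕ} (v : Fin q → ℂ) : e6_L1 v = (Fin.cons 0 v : Fin (q + 1) → ℂ) := by
  funext i
  refine Fin.cases ?_ (fun j => ?_) i
  · simp [e6_L1]
  · simp [e6_L1]

/-- `v ↦ (0, 0, v)` -/
def e6_L {q : ℕ} : (Fin q → ℂ) →L[ℂ] (Fin (q + 2) → ℂ) := e6_L1.comp e6_L1

theorem e6_L_apply {q : ℕ} (v : Fin q → ℂ) : e6_L v = (Fin.cons 0 (Fin.cons 0 v : Fin (q + 1) → ℂ) : Fin (q + 2) → ℂ) := by
  simp [e6_L, e6_L1_apply]

theorem e6_split {q : ℕ} (x : ℝ) (v : Fin q → ℂ) :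
    (Fin.cons (x : ℂ) (Fin.cons (x : ℂ) v : Fin (q + 1) → ℂ) : Fin (q + 2) → ℂ) = e6_g x + e6_L v := by
  rw [e6_L_apply]
  funext i
  refine Fin.cases ?_ (fun j => ?_) i
  · simp [e6_g]
  · refine Fin.cases ?_ (fun k => ?_) j
    · simp [e6_g]
    · simp [e6_g]

theorem e6_g_cont {q : ℕ} : Continuous (e6_g (q := q)) := by
  rw [continuous_pi_iff]
  intro i
  refine Fin.cases ?_ (fun j => ?_) i
  · simpa [e6_g] using Complex.continuous_ofReal
  · refine Fin.cases ?_ (fun k => ?_) j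
    · simpa [e6_g] using Complex.continuous_ofReal
    · simpa [e6_g] using continuous_const

theorem e6_gL_mem {q : ℕ} {s : ℝ} (hs : 0 < s) (x : ℝ) {v : Fin q → ℂ} (hv : v ∈ PU q (St s)) :
    e6_g x + e6_L v ∈ PU (q + 2) (St s) := by
  rw [← e6_split]
  exact e6_cons_mem (e6_real_mem s hs x) (e6_cons_mem (e6_real_mem s hs x) hv)

theorem e6_ec_eq' {q : ℕ} {s : ℝ} (hs : 0 < s) (F : (Fin (q + 2) → ℂ) → ℂ)
    (hF : DifferentiableOn ℂ F (PU (q + 2) (St s))) (v : Fin q → ℂ) (hv : v ∈ PU q (St s)) :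
    ec q F v = ∫ x in (0 : ℝ)..1, 1 * e6_pd 1 F (e6_g x + e6_L v) := by
  rw [e6_ec_eq hs F hF v hv]
  refine intervalIntegral.integral_congr fun x _ => ?_
  rw [e6_split, one_mul]

theorem e6_ec_fd {q : ℕ} {s : ℝ} (hs : 0 < s) (F : (Fin (q + 2) → ℂ) → ℂ)
    (hF : DifferentiableOn ℂ F (PU (q + 2) (St s))) (v : Fin q → ℂ) (hv : v ∈ PU q (St s)) :
    HasFDerivAt (ec q F)
      (∫ x in (0 : ℝ)..1, (1 : ℂ) • (fderiv ℂ (e6_pd 1 F) (e6_g x + e6_L v)).comp e6_L) v := by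
  have hV := e6_isOpen_PU (q + 2) (e6_isOpen_St s)
  have h := e6_param (e6_pd 1 F) _ hV (e6_pd_diff _ hV F hF 1) e6_g e6_g_cont e6_L (fun _ => 1)
    continuous_const 0 1 v (fun x _ => e6_gL_mem hs x hv)
  refine h.congr_of_eventuallyEq ?_
  filter_upwards [(e6_isOpen_PU q (e6_isOpen_St s)).mem_nhds hv] with w hw
  exact e6_ec_eq' hs F hF w hw

theorem e6_ec_pd {q : ℕ} {s : ℝ} (hs : 0 < s) (F : (Fin (q + 2) → ℂ) → ℂ)
    (hF : DifferentiableOn ℂ F (PU (q + 2) (St s))) (v : Fin q → ℂ) (hv : v ∈ PU q (St s)) (j : Fin q) :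
    e6_pd j (ec q F) v = ∫ x in (0 : ℝ)..1, e6_pd j.succ.succ (e6_pd 1 F) (e6_g x + e6_L v) := by
  have hV := e6_isOpen_PU (q + 2) (e6_isOpen_St s)
  have h1 := e6_ec_fd hs F hF v hv
  change fderiv ℂ (ec q F) v (Pi.single j 1) = _
  rw [h1.fderiv]
  have hcont : Continuous fun x : ℝ => (1 : ℂ) • (fderiv ℂ (e6_pd 1 F) (e6_g x + e6_L v)).comp e6_L := by
    have h2 : ContDiffOn ℂ 1 (e6_pd 1 F) (PU (q + 2) (St s)) := by
      exact_mod_cast e6_contDiffOn _ hV 1 _ (e6_pd_diff _ hV F hF 1)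
    have h3 : ContinuousOn (fderiv ℂ (e6_pd 1 F)) (PU (q + 2) (St s)) :=
      h2.continuousOn_fderiv_of_isOpen hV le_rfl
    have h4 : Continuous fun x : ℝ => fderiv ℂ (e6_pd 1 F) (e6_g x + e6_L v) := by
      rw [← continuousOn_univ]
      refine h3.comp ?_ (fun x _ => e6_gL_mem hs x hv)
      exact (e6_g_cont.add continuous_const).continuousOn
    have h5 : Continuous fun T : (Fin (q + 2) → ℂ) →L[ℂ] ℂ => T.comp (e6_L (q := q)) := by fun_prop
    exact (h5.comp h4).const_smul (1 : ℂ)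
  rw [ContinuousLinearMap.intervalIntegral_apply (hcont.intervalIntegrable 0 1)]
  refine intervalIntegral.integral_congr fun x _ => ?_
  have h6 : e6_L (Pi.single j 1 : Fin q → ℂ) = Pi.single j.succ.succ 1 := by
    rw [e6_L_apply, e6_single_succ, e6_single_succ]
  simp only [one_smul, ContinuousLinearMap.comp_apply, h6]
  rfl

theorem e6_bound {q : ℕ} {s : ℝ} (hs : 0 < s) (F : (Fin (q + 2) → ℂ) → ℂ)
    (hF : DifferentiableOn ℂ F (PU (q + 2) (St s))) (M : ℝ) (hM : ∀ z ∈ PU (q + 2) (St s), ‖F z‖ ≤ M)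
    (v : Fin q → ℂ) (hv : v ∈ PU q (St s)) : ‖ec q F v‖ ≤ 2 / s * M := by
  unfold ec
  have h := intervalIntegral.norm_integral_le_of_norm_le_const (a := (0 : ℝ)) (b := 1)
    (f := fun x : ℝ => deriv (fun t : ℂ => F (Fin.cons (x : ℂ) (Fin.cons t v : Fin (q + 1) → ℂ))) (x : ℂ))
    (C := M / (s / 2)) (by
      intro x _
      have hmem : ∀ t ∈ Metric.closedBall (x : ℂ) (s / 2), t ∈ St s := by
        intro t ht
        have h1 : |t.im| ≤ ‖t - x‖ := by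
          have := Complex.abs_im_le_norm (t - x)
          simpa using this
        have h2 : ‖t - x‖ ≤ s / 2 := by simpa [dist_eq_norm] using ht
        change |t.im| < s
        linarith
      have hmem2 : ∀ t ∈ Metric.closedBall (x : ℂ) (s / 2),
          (Fin.cons (x : ℂ) (Fin.cons t v : Fin (q + 1) → ℂ) : Fin (q + 2) → ℂ) ∈ PU (q + 2) (St s) := fun t ht =>
        e6_cons_mem (e6_real_mem s hs x) (e6_cons_mem (hmem t ht) hv)
      have hd : DifferentiableOn ℂ (fun t : ℂ => F (Fin.cons (x : ℂ) (Fin.cons t v : Fin (q + 1) → ℂ)))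
          (Metric.closedBall (x : ℂ) (s / 2)) := fun t ht =>
        (e6_path _ (e6_isOpen_PU (q + 2) (e6_isOpen_St s)) F hF _ _ t (e6_hd_cons2 (x : ℂ) v t)
          (hmem2 t ht)).differentiableAt.differentiableWithinAt
      have hdc : DiffContOnCl ℂ (fun t : ℂ => F (Fin.cons (x : ℂ) (Fin.cons t v : Fin (q + 1) → ℂ)))
          (Metric.ball (x : ℂ) (s / 2)) := (hd.mono Metric.closure_ball_subset_closedBall).diffContOnCl
      exact Complex.norm_deriv_le_of_forall_mem_sphere_norm_le (by linarith) hdc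
        (fun t ht => hM _ (hmem2 t (Metric.sphere_subset_closedBall ht))))
  calc _ ≤ M / (s / 2) * |1 - 0| := h
    _ = 2 / s * M := by
      have : s ≠ 0 := hs.ne'
      rw [sub_zero, abs_one, mul_one]; field_simp

theorem e6_BO {q : ℕ} {s : ℝ} (hs : 0 < s) (F : (Fin (q + 2) → ℂ) → ℂ) (hF : BO (q + 2) (St s) F) :
    BO q (St s) (ec q F) := by
  have hU := e6_isOpen_St s
  refine ⟨?_, ?_, ?_, ?_⟩
  · intro v hv
    exact (e6_ec_fd hs F hF.hol v hv).differentiableAt.differentiableWithinAt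
  · intro z hz i
    unfold ec
    refine intervalIntegral.integral_congr fun x _ => ?_
    refine Filter.EventuallyEq.deriv_eq ?_
    filter_upwards [hU.mem_nhds (e6_real_mem s hs x)] with t ht
    have h := hF.per (Fin.cons (x : ℂ) (Fin.cons t z : Fin (q + 1) → ℂ))
      (e6_cons_mem (e6_real_mem s hs x) (e6_cons_mem ht hz)) i.succ.succ
    rw [← h, Fin.cons_succ, Fin.cons_succ, Fin.cons_update, Fin.cons_update]
  · intro z hz σ
    obtain ⟨τ, h0, h1, h2⟩ := e6_ext σ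
    obtain ⟨τ', h0', h1', h2'⟩ := e6_ext τ
    unfold ec
    rw [← intervalIntegral.integral_const_mul]
    refine intervalIntegral.integral_congr fun x _ => ?_
    rw [← deriv_const_mul_field]
    refine Filter.EventuallyEq.deriv_eq ?_
    filter_upwards [hU.mem_nhds (e6_real_mem s hs x)] with t ht
    rw [e6_ext_cons σ τ h0 h1, e6_ext_cons τ τ' h0' h1', ← h2, ← h2']
    exact hF.alt _ (e6_cons_mem (e6_real_mem s hs x) (e6_cons_mem ht hz)) τ'
  · obtain ⟨C, hC⟩ := hF.bdd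
    exact ⟨2 / s * C, fun z hz => e6_bound hs F hF.hol C hC z hz⟩

/-- `∫_0^1` of the derivative of a 1-periodic holomorphic function on the strip vanishes -/
theorem e6_int_deriv {s : ℝ} (hs : 0 < s) (f : ℂ → ℂ) (hf : DifferentiableOn ℂ f (St s)) (h01 : f 1 = f 0) :
    ∫ x in (0 : ℝ)..1, deriv f (x : ℂ) = 0 := by
  have hU := e6_isOpen_St s
  have hd : ∀ x ∈ Set.uIcc (0 : ℝ) 1, HasDerivAt (fun y : ℝ => f (y : ℂ)) (deriv f (x : ℂ)) x := by
    intro x _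
    have h1 : HasDerivAt f (deriv f (x : ℂ)) (x : ℂ) :=
      ((hf _ (e6_real_mem s hs x)).differentiableAt (hU.mem_nhds (e6_real_mem s hs x))).hasDerivAt
    exact h1.comp_ofReal
  have hcont : Continuous fun x : ℝ => deriv f (x : ℂ) := by
    have h1 : ContinuousOn (deriv f) (St s) := (hf.deriv hU).continuousOn
    rw [← continuousOn_univ]
    exact h1.comp Complex.continuous_ofReal.continuousOn fun x _ => e6_real_mem s hs x
  rw [intervalIntegral.integral_eq_sub_of_hasDerivAt hd (hcont.intervalIntegrable 0 1)]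
  simp [h01]

theorem e6_hd_remove {n : ℕ} (x : ℂ) (v : Fin n → ℂ) (i : Fin (n + 2)) (t : ℂ) :
    HasDerivAt (fun t : ℂ => (i.removeNth (Fin.cons x (Fin.cons t v : Fin (n + 1) → ℂ) : Fin (n + 2) → ℂ) : Fin (n + 1) → ℂ))
      (i.removeNth (Pi.single 1 1 : Fin (n + 2) → ℂ)) t := by
  rw [hasDerivAt_pi]
  intro k
  exact (hasDerivAt_pi.1 (e6_hd_cons2 x v t)) (i.succAbove k)

theorem e6_remove_mem {n : ℕ} {U : Set ℂ} (i : Fin (n + 1)) {z : Fin (n + 1) → ℂ} (hz : z ∈ PU (n + 1) U) :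
    (i.removeNth z : Fin n → ℂ) ∈ PU n U := fun k => hz (i.succAbove k)

theorem e6_fd_cont {n : ℕ} {V : Set (Fin n → ℂ)} (hV : IsOpen V) (F : (Fin n → ℂ) → ℂ)
    (hF : DifferentiableOn ℂ F V) (h : Fin n → ℂ) (γ : ℝ → Fin n → ℂ) (hγ : Continuous γ) (hm : ∀ x, γ x ∈ V) :
    Continuous fun x => fderiv ℂ F (γ x) h := by
  have h1 := (e6_dir F V hV hF h).continuousOn
  rw [← continuousOn_univ]
  exact h1.comp hγ.continuousOn fun x _ => hm x

theorem e6_ec_wd {n : ℕ} {s : ℝ} (hs : 0 < s) (F : (Fin (n + 1) → ℂ) → ℂ) (hF : BO (n + 1) (St s) F)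
    (v : Fin n → ℂ) (hv : v ∈ PU n (St s)) :
    ec n (wd (fun _ => 1) (n + 1) F) v = ∑ j : Fin n, (-1 : ℂ) ^ (j : ℕ) * ∫ x in (0 : ℝ)..1,
      deriv (fun t : ℂ => F (j.succ.succ.removeNth (Fin.cons (x : ℂ) (Fin.cons t v : Fin (n + 1) → ℂ) : Fin (n + 2) → ℂ))) (x : ℂ) := by
  have hU := e6_isOpen_St s
  have hV := e6_isOpen_PU (n + 1) hU
  have hj : ∀ (j : Fin (n + 2)) (x : ℝ), HasDerivAt
      (fun t : ℂ => F (j.removeNth (Fin.cons (x : ℂ) (Fin.cons t v : Fin (n + 1) → ℂ) : Fin (n + 2) → ℂ)))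
      (fderiv ℂ F (j.removeNth (e6_g x + e6_L v)) (j.removeNth (Pi.single 1 1 : Fin (n + 2) → ℂ))) (x : ℂ) := by
    intro j x
    rw [← e6_split]
    exact e6_path _ hV F hF.hol _ _ (x : ℂ) (e6_hd_remove (x : ℂ) v j (x : ℂ))
      (e6_remove_mem j (e6_cons_mem (e6_real_mem s hs x) (e6_cons_mem (e6_real_mem s hs x) hv)))
  have h0 : ∀ x : ℝ, HasDerivAt (fun t : ℂ => F (Fin.cons t v : Fin (n + 1) → ℂ))
      (deriv (fun t : ℂ => F (Fin.cons t v : Fin (n + 1) → ℂ)) (x : ℂ)) (x : ℂ) := by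
    intro x
    have := e6_path _ hV F hF.hol _ _ (x : ℂ) (e6_hd_cons1 v (x : ℂ))
      (e6_cons_mem (e6_real_mem s hs x) hv)
    exact this.differentiableAt.hasDerivAt
  have hval : ∀ x : ℝ, deriv (fun t : ℂ => wd (fun _ => 1) (n + 1) F
      (Fin.cons (x : ℂ) (Fin.cons t v : Fin (n + 1) → ℂ))) (x : ℂ)
      = deriv (fun t : ℂ => F (Fin.cons t v : Fin (n + 1) → ℂ)) (x : ℂ) + ∑ j : Fin n, (-1 : ℂ) ^ (j : ℕ) *
        (fderiv ℂ F (j.succ.succ.removeNth (e6_g x + e6_L v)) (j.succ.succ.removeNth (Pi.single 1 1 : Fin (n + 2) → ℂ))) := by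
    intro x
    have e : (fun t : ℂ => wd (fun _ => 1) (n + 1) F (Fin.cons (x : ℂ) (Fin.cons t v : Fin (n + 1) → ℂ)))
        = fun t : ℂ => (F (Fin.cons t v : Fin (n + 1) → ℂ) - F (Fin.cons (x : ℂ) v : Fin (n + 1) → ℂ))
          + ∑ j : Fin n, (-1 : ℂ) ^ (j : ℕ) *
            F (j.succ.succ.removeNth (Fin.cons (x : ℂ) (Fin.cons t v : Fin (n + 1) → ℂ) : Fin (n + 2) → ℂ)) := by
      funext t
      unfold wd
      rw [Fin.sum_univ_succ, Fin.sum_univ_succ]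
      have e1 : (Fin.succ 0 : Fin (n + 2)) = 1 := rfl
      rw [e1, e6_removeNth_one, Fin.removeNth_zero, Fin.tail_cons, ← add_assoc]
      congr 1
      · simp
        ring
      · refine Finset.sum_congr rfl fun j _ => ?_
        simp [pow_succ]
    rw [e]
    have hsum : HasDerivAt (fun t : ℂ => ∑ j : Fin n, (-1 : ℂ) ^ (j : ℕ) *
            F (j.succ.succ.removeNth (Fin.cons (x : ℂ) (Fin.cons t v : Fin (n + 1) → ℂ) : Fin (n + 2) → ℂ)))
        (∑ j : Fin n, (-1 : ℂ) ^ (j : ℕ) *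
        (fderiv ℂ F (j.succ.succ.removeNth (e6_g x + e6_L v)) (j.succ.succ.removeNth (Pi.single 1 1 : Fin (n + 2) → ℂ)))) (x : ℂ) :=
      HasDerivAt.fun_sum fun j _ => (hj j.succ.succ x).const_mul _
    exact (((h0 x).sub_const _).add hsum).deriv
  unfold ec
  rw [intervalIntegral.integral_congr fun x _ => hval x]
  have hc0 : Continuous fun x : ℝ => deriv (fun t : ℂ => F (Fin.cons t v : Fin (n + 1) → ℂ)) (x : ℂ) := by
    have : (fun x : ℝ => deriv (fun t : ℂ => F (Fin.cons t v : Fin (n + 1) → ℂ)) (x : ℂ))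
        = fun x : ℝ => fderiv ℂ F (Fin.cons (x : ℂ) v : Fin (n + 1) → ℂ) (Pi.single 0 1) := by
      funext x
      exact (e6_path _ hV F hF.hol _ _ (x : ℂ) (e6_hd_cons1 v (x : ℂ))
        (e6_cons_mem (e6_real_mem s hs x) hv)).deriv
    rw [this]
    refine e6_fd_cont hV F hF.hol _ _ ?_ (fun x => e6_cons_mem (e6_real_mem s hs x) hv)
    rw [continuous_pi_iff]
    intro i
    refine Fin.cases ?_ (fun k => ?_) i
    · simpa using Complex.continuous_ofReal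
    · simpa using continuous_const
  have hcj : ∀ j : Fin n, Continuous fun x : ℝ => (-1 : ℂ) ^ (j : ℕ) *
      (fderiv ℂ F (j.succ.succ.removeNth (e6_g x + e6_L v)) (j.succ.succ.removeNth (Pi.single 1 1 : Fin (n + 2) → ℂ))) := by
    intro j
    refine continuous_const.mul ?_
    refine e6_fd_cont hV F hF.hol _ _ ?_ (fun x => e6_remove_mem _ (e6_gL_mem hs x hv))
    rw [continuous_pi_iff]
    intro i
    exact (continuous_apply (j.succ.succ.succAbove i)).comp (e6_g_cont.add continuous_const)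
  rw [intervalIntegral.integral_add (hc0.intervalIntegrable 0 1)
    ((continuous_finsetSum _ fun j _ => hcj j).intervalIntegrable 0 1)]
  have hz : ∫ x in (0 : ℝ)..1, deriv (fun t : ℂ => F (Fin.cons t v : Fin (n + 1) → ℂ)) (x : ℂ) = 0 := by
    refine e6_int_deriv hs _ ?_ ?_
    · intro t ht
      exact (e6_path _ hV F hF.hol _ _ t (e6_hd_cons1 v t) (e6_cons_mem ht hv)).differentiableAt.differentiableWithinAt
    · have h := hF.per (Fin.cons (0 : ℂ) v : Fin (n + 1) → ℂ)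
        (e6_cons_mem (by simpa using e6_real_mem s hs 0) hv) 0
      have e : Function.update (Fin.cons (0 : ℂ) v : Fin (n + 1) → ℂ) 0
          ((Fin.cons (0 : ℂ) v : Fin (n + 1) → ℂ) 0 + 1) = Fin.cons 1 v := by
        rw [Fin.update_cons_zero]; simp
      rw [e] at h
      exact h
  rw [hz, zero_add, intervalIntegral.integral_finsetSum fun j _ => (hcj j).intervalIntegrable 0 1]
  refine Finset.sum_congr rfl fun j _ => ?_
  rw [intervalIntegral.integral_const_mul]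
  congr 1
  refine intervalIntegral.integral_congr fun x _ => ?_
  exact (hj j.succ.succ x).deriv.symm

theorem e6_dd_comm {q : ℕ} {s : ℝ} (hs : 0 < s) (F : (Fin (q + 3) → ℂ) → ℂ) (hF : BO (q + 3) (St s) F)
    (v : Fin q → ℂ) (hv : v ∈ PU q (St s)) : ec q (dd (q + 2) F) v = dd q (ec (q + 1) F) v := by
  have hU := e6_isOpen_St s
  have hV := e6_isOpen_PU (q + 3) hU
  have hvanish : ∀ x : ℝ, e6_pd 2 (e6_pd 2 F)
      (Fin.cons (x : ℂ) (Fin.cons (x : ℂ) (Fin.cons (x : ℂ) v : Fin (q + 1) → ℂ) : Fin (q + 2) → ℂ) : Fin (q + 3) → ℂ) = 0 := by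
    intro x
    have hx := e6_real_mem s hs x
    have hm : ∀ t ∈ St s, (Fin.cons (x : ℂ) (Fin.cons (x : ℂ) (Fin.cons t v : Fin (q + 1) → ℂ) : Fin (q + 2) → ℂ) : Fin (q + 3) → ℂ)
        ∈ PU (q + 3) (St s) := fun t ht => e6_cons_mem hx (e6_cons_mem hx (e6_cons_mem ht hv))
    have h1 : ∀ t ∈ St s, F (Fin.cons (x : ℂ) (Fin.cons (x : ℂ) (Fin.cons t v : Fin (q + 1) → ℂ) : Fin (q + 2) → ℂ)) = 0 := by
      intro t ht
      refine e6_alt_zero hF _ (hm t ht) 0 1 (by simp) ?_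
      simp
    have h2 : ∀ t ∈ St s, e6_pd 2 F (Fin.cons (x : ℂ) (Fin.cons (x : ℂ) (Fin.cons t v : Fin (q + 1) → ℂ) : Fin (q + 2) → ℂ)) = 0 := by
      intro t ht
      have h3 := (e6_path _ hV F hF.hol _ _ t (e6_hd_cons3 (x : ℂ) (x : ℂ) v t) (hm t ht)).deriv
      have h4 : deriv (fun t => F (Fin.cons (x : ℂ) (Fin.cons (x : ℂ) (Fin.cons t v : Fin (q + 1) → ℂ) : Fin (q + 2) → ℂ))) t = 0 := by
        have : (fun t => F (Fin.cons (x : ℂ) (Fin.cons (x : ℂ) (Fin.cons t v : Fin (q + 1) → ℂ) : Fin (q + 2) → ℂ))) =ᶠ[𝓝 t] fun _ => 0 := by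
          filter_upwards [hU.mem_nhds ht] with u hu
          exact h1 u hu
        rw [this.deriv_eq]; simp
      rw [h4] at h3
      exact h3.symm
    have h3 := (e6_path _ hV (e6_pd 2 F) (e6_pd_diff _ hV F hF.hol 2) _ _ (x : ℂ) (e6_hd_cons3 (x : ℂ) (x : ℂ) v (x : ℂ))
      (hm _ hx)).deriv
    have h4 : deriv (fun t => e6_pd 2 F (Fin.cons (x : ℂ) (Fin.cons (x : ℂ) (Fin.cons t v : Fin (q + 1) → ℂ) : Fin (q + 2) → ℂ))) (x : ℂ) = 0 := by
      have : (fun t => e6_pd 2 F (Fin.cons (x : ℂ) (Fin.cons (x : ℂ) (Fin.cons t v : Fin (q + 1) → ℂ) : Fin (q + 2) → ℂ))) =ᶠ[𝓝 (x : ℂ)] fun _ => 0 := by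
        filter_upwards [hU.mem_nhds hx] with u hu
        exact h2 u hu
      rw [this.deriv_eq]; simp
    rw [h4] at h3
    exact h3.symm
  have hval : ∀ x : ℝ, deriv (fun t : ℂ => dd (q + 2) F (Fin.cons (x : ℂ) (Fin.cons t v : Fin (q + 1) → ℂ))) (x : ℂ)
      = ∑ j : Fin q, (-1 : ℂ) ^ (j : ℕ) * e6_pd j.succ.succ.succ (e6_pd 1 F) (e6_g x + e6_L (e6_D j v)) := by
    intro x
    have hx := e6_real_mem s hs x
    have hxx : (Fin.cons (x : ℂ) (Fin.cons (x : ℂ) v : Fin (q + 1) → ℂ) : Fin (q + 2) → ℂ) ∈ PU (q + 2) (St s) :=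
      e6_cons_mem hx (e6_cons_mem hx hv)
    have hE : (fun t : ℂ => dd (q + 2) F (Fin.cons (x : ℂ) (Fin.cons t v : Fin (q + 1) → ℂ))) =ᶠ[𝓝 (x : ℂ)]
        fun t : ℂ => ∑ i : Fin (q + 2), (-1 : ℂ) ^ (i : ℕ) *
          e6_pd i.succ F (e6_D i (Fin.cons (x : ℂ) (Fin.cons t v : Fin (q + 1) → ℂ))) := by
      filter_upwards [hU.mem_nhds hx] with t ht
      exact e6_dd_eq hU F hF.hol _ (e6_cons_mem hx (e6_cons_mem ht hv))
    rw [hE.deriv_eq]
    have hd : HasDerivAt (fun t : ℂ => ∑ i : Fin (q + 2), (-1 : ℂ) ^ (i : ℕ) *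
          e6_pd i.succ F (e6_D i (Fin.cons (x : ℂ) (Fin.cons t v : Fin (q + 1) → ℂ))))
        (∑ i : Fin (q + 2), (-1 : ℂ) ^ (i : ℕ) *
          fderiv ℂ (e6_pd i.succ F) (e6_D i (Fin.cons (x : ℂ) (Fin.cons (x : ℂ) v : Fin (q + 1) → ℂ))) (e6_D i (Pi.single 1 1))) (x : ℂ) := by
      refine HasDerivAt.fun_sum fun i _ => ?_
      refine HasDerivAt.const_mul _ ?_
      exact e6_path _ hV (e6_pd i.succ F) (e6_pd_diff _ hV F hF.hol i.succ) _ _ (x : ℂ)
        ((e6_D i).hasFDerivAt.comp_hasDerivAt (x : ℂ) (e6_hd_cons2 (x : ℂ) v (x : ℂ))) (e6_D_mem i hxx)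
    rw [hd.deriv, Fin.sum_univ_succ, Fin.sum_univ_succ]
    have e1 : (Fin.succ 0 : Fin (q + 2)) = 1 := rfl
    have e2 : (Fin.succ 0 : Fin (q + 3)) = 1 := rfl
    have e3 : (Fin.succ 1 : Fin (q + 3)) = 2 := rfl
    have hD1 : e6_D 1 (Fin.cons (x : ℂ) (Fin.cons (x : ℂ) v : Fin (q + 1) → ℂ) : Fin (q + 2) → ℂ)
        = (Fin.cons (x : ℂ) (Fin.cons (x : ℂ) (Fin.cons (x : ℂ) v : Fin (q + 1) → ℂ) : Fin (q + 2) → ℂ) : Fin (q + 3) → ℂ) := by
      rw [← e1, e6_D_succ, e6_D_zero]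
    rw [e1, e2, e3, e6_D0_single, e6_D1_single, e6_D_zero, hD1, map_add, ← add_assoc]
    have hm : (Fin.cons (x : ℂ) (Fin.cons (x : ℂ) (Fin.cons (x : ℂ) v : Fin (q + 1) → ℂ) : Fin (q + 2) → ℂ) : Fin (q + 3) → ℂ)
        ∈ PU (q + 3) (St s) := e6_cons_mem hx (e6_cons_mem hx (e6_cons_mem hx hv))
    have hfirst : (-1 : ℂ) ^ ((0 : Fin (q + 2)) : ℕ) * fderiv ℂ (e6_pd 1 F) (Fin.cons (x : ℂ) (Fin.cons (x : ℂ) (Fin.cons (x : ℂ) v : Fin (q + 1) → ℂ) : Fin (q + 2) → ℂ)) (Pi.single 2 1)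
        + (-1 : ℂ) ^ ((1 : Fin (q + 2)) : ℕ) * (fderiv ℂ (e6_pd 2 F) (Fin.cons (x : ℂ) (Fin.cons (x : ℂ) (Fin.cons (x : ℂ) v : Fin (q + 1) → ℂ) : Fin (q + 2) → ℂ)) (Pi.single 1 1)
          + fderiv ℂ (e6_pd 2 F) (Fin.cons (x : ℂ) (Fin.cons (x : ℂ) (Fin.cons (x : ℂ) v : Fin (q + 1) → ℂ) : Fin (q + 2) → ℂ)) (Pi.single 2 1)) = 0 := by
      have h1 := e6_pd_comm _ hV F hF.hol 1 2 _ hm
      have h2 := hvanish x
      change _ * e6_pd 2 (e6_pd 1 F) _ + _ * (e6_pd 1 (e6_pd 2 F) _ + e6_pd 2 (e6_pd 2 F) _) = 0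
      rw [h1, h2]
      simp
    rw [hfirst, zero_add]
    refine Finset.sum_congr rfl fun j _ => ?_
    rw [e6_Dss_single, e6_D_succ, e6_D_succ, e6_split]
    have hm2 : (e6_g x + e6_L (e6_D j v)) ∈ PU (q + 3) (St s) := e6_gL_mem hs x (e6_D_mem j hv)
    have h1 := e6_pd_comm _ hV F hF.hol 1 j.succ.succ.succ _ hm2
    change _ * e6_pd 1 (e6_pd j.succ.succ.succ F) _ = _
    rw [h1]
    congr 1
    simp [pow_succ]
  unfold ec
  rw [intervalIntegral.integral_congr fun x _ => hval x]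
  have hBO := e6_BO hs F hF
  have hdd := e6_dd_eq hU (ec (q + 1) F) hBO.hol v hv
  have hc : ∀ j : Fin q, Continuous fun x : ℝ => (-1 : ℂ) ^ (j : ℕ) * e6_pd j.succ.succ.succ (e6_pd 1 F) (e6_g x + e6_L (e6_D j v)) := by
    intro j
    refine continuous_const.mul ?_
    exact e6_fd_cont hV (e6_pd 1 F) (e6_pd_diff _ hV F hF.hol 1) _ _ (e6_g_cont.add continuous_const)
      (fun x => e6_gL_mem hs x (e6_D_mem j hv))
  rw [intervalIntegral.integral_finsetSum fun j _ => (hc j).intervalIntegrable 0 1]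
  change _ = dd q (ec (q + 1) F) v
  rw [hdd]
  refine Finset.sum_congr rfl fun j _ => ?_
  rw [intervalIntegral.integral_const_mul, e6_ec_pd hs F hF.hol (e6_D j v) (e6_D_mem j hv) j.succ]

theorem st_E6 : ST_E6 := by
  intro q s hs
  refine ⟨fun F hF => e6_BO hs F hF, ⟨2 / s, fun F hF M hM z hz => e6_bound hs F hF.hol M hM z hz⟩,
    fun F hF v hv => e6_dd_comm hs F hF v hv, fun F hF v hv => ?_, fun F hF v => ?_⟩
  · rw [e6_ec_wd hs F hF v hv]
    unfold wd ec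
    refine Finset.sum_congr rfl fun j _ => ?_
    rw [mul_one]
    congr 1
    refine intervalIntegral.integral_congr fun x _ => ?_
    simp only [e6_removeNth_succ]
  · have h := e6_ec_wd (n := 0) hs F hF v (fun i => i.elim0)
    rw [h]; simp

end

end Pool.Agent.Helper67.DO
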