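import Pool.Agent.Helper67.DO.StmtsE1

/-! # Holomorphic functions of several variables: parametric integrals, second derivatives -/

namespace Pool.Agent.Helper67.DO

open scoped BigOperators Real Topology
open MeasureTheory

noncomputable section

/-- Cauchy estimate for the derivative. -/
theorem e6_cauchy {E : Type*} [NormedAddCommGroup E] [NormedSpace ℂ E] (F : E → ℂ) (y : E)
    (r M : ℝ) (hr : 0 < r) (hM0 : 0 ≤ M) (hF : DifferentiableOn ℂ F (Metric.ball y r))
    (hM : ∀ z ∈ Metric.ball y r, ‖F z‖ ≤ M) : ‖fderiv ℂ F y‖ ≤ 2 * M / r := by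
  refine ContinuousLinearMap.opNorm_le_bound _ (by positivity) fun v => ?_
  by_cases hv : v = 0
  · subst hv; simp
  have hv' : 0 < ‖v‖ := norm_pos_iff.2 hv
  set ρ : ℝ := r / (2 * ‖v‖) with hρ
  have hρ0 : 0 < ρ := by positivity
  have hmem : ∀ w : ℂ, ‖w‖ ≤ ρ → y + w • v ∈ Metric.ball y r := by
    intro w hw
    rw [Metric.mem_ball, dist_eq_norm, add_sub_cancel_left, norm_smul]
    calc ‖w‖ * ‖v‖ ≤ ρ * ‖v‖ := by gcongr
      _ = r / 2 := by rw [hρ]; field_simp
      _ < r := by linarith
  have hd : DifferentiableOn ℂ (fun w : ℂ => F (y + w • v)) (Metric.closedBall 0 ρ) := by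
    intro w hw
    have hw' : ‖w‖ ≤ ρ := by simpa using hw
    have h1 : DifferentiableAt ℂ F (y + w • v) :=
      (hF _ (hmem w hw')).differentiableAt (Metric.isOpen_ball.mem_nhds (hmem w hw'))
    have h2 : DifferentiableAt ℂ (fun w : ℂ => y + w • v) w := by fun_prop
    exact (DifferentiableAt.comp w h1 h2).differentiableWithinAt
  have hdc : DiffContOnCl ℂ (fun w : ℂ => F (y + w • v)) (Metric.ball 0 ρ) :=
    (hd.mono Metric.closure_ball_subset_closedBall).diffContOnCl
  have h3 := Complex.norm_deriv_le_of_forall_mem_sphere_norm_le hρ0 hdc (C := M) (by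
    intro w hw
    exact hM _ (hmem w (by simpa using (le_of_eq hw))))
  have h4 : deriv (fun w : ℂ => F (y + w • v)) 0 = fderiv ℂ F y v := by
    have h1 : HasFDerivAt F (fderiv ℂ F y) (y + (0 : ℂ) • v) := by
      rw [zero_smul, add_zero]
      exact ((hF y (Metric.mem_ball_self hr)).differentiableAt
        (Metric.isOpen_ball.mem_nhds (Metric.mem_ball_self hr))).hasFDerivAt
    have h2 : HasDerivAt (fun w : ℂ => y + w • v) v 0 := by
      simpa using ((hasDerivAt_id (0 : ℂ)).smul_const v).const_add y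
    exact (h1.comp_hasDerivAt (0 : ℂ) h2).deriv
  rw [h4] at h3
  calc ‖fderiv ℂ F y v‖ ≤ M / ρ := h3
    _ = 2 * M / r * ‖v‖ := by rw [hρ]; field_simp

/-- Differentiation of `∫ k x * F (γ x + L z)`. -/
theorem e6_param {H E : Type*} [NormedAddCommGroup H] [NormedSpace ℂ H]
    [NormedAddCommGroup E] [NormedSpace ℂ E] [FiniteDimensional ℂ E]
    (F : E → ℂ) (V : Set E) (hV : IsOpen V) (hF : DifferentiableOn ℂ F V)
    (γ : ℝ → E) (hγ : Continuous γ) (L : H →L[ℂ] E) (k : ℝ → ℂ) (hk : Continuous k)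
    (a b : ℝ) (z0 : H) (h0 : ∀ x ∈ Set.uIcc a b, γ x + L z0 ∈ V) :
    HasFDerivAt (fun z => ∫ x in a..b, k x * F (γ x + L z))
      (∫ x in a..b, k x • (fderiv ℂ F (γ x + L z0)).comp L) z0 := by
  have : ProperSpace E := FiniteDimensional.proper ℂ E
  let _ : MeasurableSpace E := borel E
  have : BorelSpace E := ⟨rfl⟩
  have : SecondCountableTopology (E →L[ℂ] ℂ) := by
    have : ProperSpace (E →L[ℂ] ℂ) := FiniteDimensional.proper ℂ _
    infer_instance
  set K : Set E := (fun x => γ x + L z0) '' Set.uIcc a b with hK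
  have hKc : IsCompact K := isCompact_uIcc.image (by fun_prop)
  have hKV : K ⊆ V := by
    rintro _ ⟨x, hx, rfl⟩; exact h0 x hx
  obtain ⟨δ, hδ, hδV⟩ := hKc.exists_cthickening_subset_open hV hKV
  have hcK : IsCompact (Metric.cthickening δ K) := hKc.cthickening
  obtain ⟨M, hM⟩ := hcK.exists_bound_of_continuousOn (hF.continuousOn.mono hδV)
  set M' := max M 0
  have hM' : ∀ z ∈ Metric.cthickening δ K, ‖F z‖ ≤ M' := fun z hz => (hM z hz).trans (le_max_left _ _)
  set s : Set H := {z | ‖L z - L z0‖ < δ / 2} with hs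
  have hs0 : s ∈ 𝓝 z0 := by
    apply IsOpen.mem_nhds
    · exact isOpen_lt (by fun_prop) continuous_const
    · simp [hs, hδ]
  have hball : ∀ x ∈ Set.uIcc a b, ∀ z ∈ s, Metric.ball (γ x + L z) (δ / 2) ⊆ Metric.cthickening δ K := by
    intro x hx z hz y hy
    have h1 : dist y (γ x + L z0) ≤ δ := by
      calc dist y (γ x + L z0) ≤ dist y (γ x + L z) + dist (γ x + L z) (γ x + L z0) := dist_triangle _ _ _
        _ ≤ δ / 2 + δ / 2 := by
          gcongr
          · exact (Metric.mem_ball.1 hy).le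
          · rw [dist_eq_norm, add_sub_add_left_eq_sub]; exact le_of_lt hz
        _ = δ := by ring
    exact Metric.mem_cthickening_of_dist_le y _ δ K ⟨x, hx, rfl⟩ h1
  have hmemV : ∀ x ∈ Set.uIcc a b, ∀ z ∈ s, γ x + L z ∈ V := fun x hx z hz =>
    hδV (hball x hx z hz (Metric.mem_ball_self (by linarith)))
  have hcont : ∀ z ∈ s, ContinuousOn (fun x => k x * F (γ x + L z)) (Set.uIcc a b) := by
    intro z hz
    refine hk.continuousOn.mul (hF.continuousOn.comp (by fun_prop) ?_)
    intro x hx
    exact hmemV x hx z hz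
  have hsub : Set.uIoc a b ⊆ Set.uIcc a b := Set.uIoc_subset_uIcc
  obtain ⟨B, hB⟩ := (isCompact_uIcc (a := a) (b := b)).exists_bound_of_continuousOn hk.continuousOn
  have hmeas : Measurable (fderiv ℂ F) := measurable_fderiv ℂ F
  refine intervalIntegral.hasFDerivAt_integral_of_dominated_of_fderiv_le
    (F' := fun z x => k x • (fderiv ℂ F (γ x + L z)).comp L)
    (bound := fun _ => max B 0 * (2 * M' / (δ / 2) * ‖L‖)) hs0 ?_ ?_ ?_ ?_ ?_ ?_
  · filter_upwards [hs0] with z hz
    exact ((hcont z hz).mono hsub).aestronglyMeasurable measurableSet_uIoc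
  · exact (hcont z0 (mem_of_mem_nhds hs0)).intervalIntegrable
  · have h1 : StronglyMeasurable (fun x : ℝ => fderiv ℂ F (γ x + L z0)) :=
      (hmeas.comp (by fun_prop : Continuous fun x : ℝ => γ x + L z0).measurable).stronglyMeasurable
    have h2 : StronglyMeasurable (fun x : ℝ => (fderiv ℂ F (γ x + L z0)).comp L) := by
      have hc : Continuous (fun T : E →L[ℂ] ℂ => T.comp L) := by fun_prop
      exact hc.comp_stronglyMeasurable h1
    exact (hk.stronglyMeasurable.smul h2).aestronglyMeasurable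
  · refine Filter.Eventually.of_forall fun x hx z hz => ?_
    have hx' := hsub hx
    calc ‖k x • (fderiv ℂ F (γ x + L z)).comp L‖ = ‖k x‖ * ‖(fderiv ℂ F (γ x + L z)).comp L‖ := norm_smul _ _
      _ ≤ max B 0 * (2 * M' / (δ / 2) * ‖L‖) := by
        gcongr
        · exact (hB x hx').trans (le_max_left _ _)
        · refine (ContinuousLinearMap.opNorm_comp_le _ _).trans ?_
          gcongr
          exact e6_cauchy F _ (δ / 2) M' (by linarith) (le_max_right _ _)
            (hF.mono ((hball x hx' z hz).trans hδV)) (fun w hw => hM' w (hball x hx' z hz hw))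
  · exact intervalIntegrable_const
  · refine Filter.Eventually.of_forall fun x hx z hz => ?_
    have hx' := hsub hx
    have h1 : HasFDerivAt F (fderiv ℂ F (γ x + L z)) (γ x + L z) :=
      ((hF _ (hmemV x hx' z hz)).differentiableAt (hV.mem_nhds (hmemV x hx' z hz))).hasFDerivAt
    have h2 : HasFDerivAt (fun z : H => γ x + L z) L z := L.hasFDerivAt.const_add (γ x)
    exact (h1.comp z h2).const_mul (k x)

/-- Directional derivatives of holomorphic functions are holomorphic. -/
theorem e6_dir {E : Type*} [NormedAddCommGroup E] [NormedSpace ℂ E] [FiniteDimensional ℂ E]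
    (F : E → ℂ) (V : Set E) (hV : IsOpen V) (hF : DifferentiableOn ℂ F V) (h : E) :
    DifferentiableOn ℂ (fun y => fderiv ℂ F y h) V := by
  intro y0 hy0
  obtain ⟨R, hR, hRV⟩ := Metric.isOpen_iff.1 hV y0 hy0
  set ρ : ℝ := R / (2 * (‖h‖ + 1)) with hρ
  have hn : 0 ≤ ‖h‖ := norm_nonneg h
  have hρ0 : 0 < ρ := by positivity
  have hρh : ρ * ‖h‖ ≤ R / 2 := by
    calc ρ * ‖h‖ ≤ ρ * (‖h‖ + 1) := by gcongr; linarith
      _ = R / 2 := by rw [hρ]; field_simp
  have hmem : ∀ y ∈ Metric.ball y0 (R / 2), ∀ w : ℂ, ‖w‖ ≤ ρ → y + w • h ∈ V := by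
    intro y hy w hw
    apply hRV
    rw [Metric.mem_ball] at hy ⊢
    calc dist (y + w • h) y0 ≤ dist (y + w • h) y + dist y y0 := dist_triangle _ _ _
      _ < R / 2 + R / 2 := by
        refine add_lt_add_of_le_of_lt ?_ hy
        rw [dist_eq_norm, add_sub_cancel_left, norm_smul]
        calc ‖w‖ * ‖h‖ ≤ ρ * ‖h‖ := by gcongr
          _ ≤ R / 2 := hρh
      _ = R := by ring
  set k : ℝ → ℂ := fun θ => (circleMap 0 ρ θ * Complex.I) * (1 / (circleMap 0 ρ θ) ^ 2) with hkdef
  have hk : Continuous k := by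
    have h1 : Continuous (circleMap 0 ρ) := continuous_circleMap 0 ρ
    refine (h1.mul continuous_const).mul (continuous_const.div (h1.pow 2) fun θ => ?_)
    exact pow_ne_zero 2 (circleMap_ne_center hρ0.ne')
  have hγ : Continuous (fun θ : ℝ => circleMap 0 ρ θ • h) := by
    have h1 : Continuous (circleMap 0 ρ) := continuous_circleMap 0 ρ
    exact h1.smul continuous_const
  have key : ∀ y ∈ Metric.ball y0 (R / 2), (∫ θ in (0 : ℝ)..2 * π, k θ * F (circleMap 0 ρ θ • h + ContinuousLinearMap.id ℂ E y))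
      = (2 * π * Complex.I) * fderiv ℂ F y h := by
    intro y hy
    have hd : DifferentiableOn ℂ (fun w : ℂ => F (y + w • h)) (Metric.closedBall 0 ρ) := by
      intro w hw
      have hw' : ‖w‖ ≤ ρ := by simpa using hw
      have h1 : DifferentiableAt ℂ F (y + w • h) :=
        (hF _ (hmem y hy w hw')).differentiableAt (hV.mem_nhds (hmem y hy w hw'))
      have h2 : DifferentiableAt ℂ (fun w : ℂ => y + w • h) w := by fun_prop
      exact (DifferentiableAt.comp w h1 h2).differentiableWithinAt
    have hdc : DiffContOnCl ℂ (fun w : ℂ => F (y + w • h)) (Metric.ball 0 ρ) :=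
      (hd.mono Metric.closure_ball_subset_closedBall).diffContOnCl
    have h4 : deriv (fun w : ℂ => F (y + w • h)) 0 = fderiv ℂ F y h := by
      have hyV : y ∈ V := by simpa using hmem y hy 0 (by simpa using hρ0.le)
      have h1 : HasFDerivAt F (fderiv ℂ F y) (y + (0 : ℂ) • h) := by
        rw [zero_smul, add_zero]
        exact ((hF y hyV).differentiableAt (hV.mem_nhds hyV)).hasFDerivAt
      have h2 : HasDerivAt (fun w : ℂ => y + w • h) h 0 := by
        simpa using ((hasDerivAt_id (0 : ℂ)).smul_const h).const_add y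
      exact (h1.comp_hasDerivAt (0 : ℂ) h2).deriv
    have h5 := hdc.deriv_eq_smul_circleIntegral hρ0
    rw [h4, smul_eq_mul] at h5
    rw [← h5]
    simp only [circleIntegral, deriv_circleMap, smul_eq_mul, hkdef, sub_zero,
      ContinuousLinearMap.id_apply]
    refine intervalIntegral.integral_congr fun θ _ => ?_
    rw [add_comm (circleMap 0 ρ θ • h) y]; ring
  have hpar := e6_param F V hV hF (fun θ : ℝ => circleMap 0 ρ θ • h) hγ (ContinuousLinearMap.id ℂ E) k hk
    0 (2 * π) y0 (by
      intro θ _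
      rw [add_comm]
      exact hmem y0 (Metric.mem_ball_self (by linarith)) _ (by simp [circleMap, abs_of_pos hρ0]))
  have h6 : DifferentiableAt ℂ (fun y => (2 * π * Complex.I) * fderiv ℂ F y h) y0 := by
    refine hpar.differentiableAt.congr_of_eventuallyEq ?_
    filter_upwards [Metric.ball_mem_nhds y0 (by linarith : 0 < R / 2)] with y hy
    exact (key y hy).symm
  have h7 : (fun y => fderiv ℂ F y h) = fun y => (2 * π * Complex.I)⁻¹ * ((2 * π * Complex.I) * fderiv ℂ F y h) := by
    funext y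
    rw [← mul_assoc, inv_mul_cancel₀ Complex.two_pi_I_ne_zero, one_mul]
  rw [h7]
  exact (h6.const_mul _).differentiableWithinAt

end

end Pool.Agent.Helper67.DO
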