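import Pool.Agent.Helper51.DO.E6a

/-! # Partial derivatives of holomorphic functions on `Fin n → ℂ` -/

namespace Pool.Agent.Helper67.DO

open scoped BigOperators Real Topology
open MeasureTheory

noncomputable section

/-- A holomorphic function of several variables is `C^n`. -/
theorem e6_contDiffOn {E : Type*} [NormedAddCommGroup E] [NormedSpace ℂ E] [FiniteDimensional ℂ E]
    (V : Set E) (hV : IsOpen V) (n : ℕ) :
    ∀ F : E → ℂ, DifferentiableOn ℂ F V → ContDiffOn ℂ n F V := by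
  induction n with
  | zero =>
    intro F hF
    exact contDiffOn_zero.2 hF.continuousOn
  | succ n ih =>
    intro F hF
    push_cast
    rw [contDiffOn_succ_iff_fderiv_of_isOpen hV]
    refine ⟨hF, by simp, ?_⟩
    rw [contDiffOn_clm_apply]
    intro h
    exact ih _ (e6_dir F V hV hF h)

/-- the partial derivative -/
def e6_pd {n : ℕ} (i : Fin n) (F : (Fin n → ℂ) → ℂ) (y : Fin n → ℂ) : ℂ := fderiv ℂ F y (Pi.single i 1)

theorem e6_pd_diff {n : ℕ} (V : Set (Fin n → ℂ)) (hV : IsOpen V) (F : (Fin n → ℂ) → ℂ)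
    (hF : DifferentiableOn ℂ F V) (i : Fin n) : DifferentiableOn ℂ (e6_pd i F) V :=
  e6_dir F V hV hF _

theorem e6_snd {E : Type*} [NormedAddCommGroup E] [NormedSpace ℂ E] [FiniteDimensional ℂ E]
    (V : Set E) (hV : IsOpen V) (F : E → ℂ)
    (hF : DifferentiableOn ℂ F V) (y : E) (hy : y ∈ V) (a b : E) :
    fderiv ℂ (fun z => fderiv ℂ F z a) y b = fderiv ℂ (fderiv ℂ F) y b a := by
  have h1 : DifferentiableAt ℂ (fderiv ℂ F) y := by
    have h2 := e6_contDiffOn V hV 2 F hF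
    have h3 : ContDiffOn ℂ 1 (fderiv ℂ F) V := by
      have := (contDiffOn_succ_iff_fderiv_of_isOpen (n := 1) hV).1 (by exact_mod_cast h2)
      exact this.2.2
    exact (h3.differentiableOn (by norm_num) y hy).differentiableAt (hV.mem_nhds hy)
  rw [fderiv_clm_apply h1 (by fun_prop)]
  simp

theorem e6_pd_comm {n : ℕ} (V : Set (Fin n → ℂ)) (hV : IsOpen V) (F : (Fin n → ℂ) → ℂ)
    (hF : DifferentiableOn ℂ F V) (i j : Fin n) (y : Fin n → ℂ) (hy : y ∈ V) :
    e6_pd i (e6_pd j F) y = e6_pd j (e6_pd i F) y := by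
  have h2 : ContDiffAt ℂ 2 F y := (e6_contDiffOn V hV 2 F hF).contDiffAt (hV.mem_nhds hy)
  have h3 : IsSymmSndFDerivAt ℂ F y := h2.isSymmSndFDerivAt (by
    rw [minSmoothness_of_isRCLikeNormedField])
  change fderiv ℂ (fun z => fderiv ℂ F z (Pi.single j 1)) y (Pi.single i 1)
    = fderiv ℂ (fun z => fderiv ℂ F z (Pi.single i 1)) y (Pi.single j 1)
  rw [e6_snd V hV F hF y hy, e6_snd V hV F hF y hy]
  exact h3 _ _

/-- chain rule along a path -/
theorem e6_path {E : Type*} [NormedAddCommGroup E] [NormedSpace ℂ E]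
    (V : Set E) (hV : IsOpen V) (F : E → ℂ) (hF : DifferentiableOn ℂ F V)
    (p : ℂ → E) (p' : E) (t : ℂ) (hp : HasDerivAt p p' t) (ht : p t ∈ V) :
    HasDerivAt (fun t => F (p t)) (fderiv ℂ F (p t) p') t :=
  (((hF _ ht).differentiableAt (hV.mem_nhds ht)).hasFDerivAt).comp_hasDerivAt t hp

theorem e6_isOpen_St (s : ℝ) : IsOpen (St s) := by
  have : Continuous fun z : ℂ => |z.im| := Complex.continuous_im.abs
  exact isOpen_lt this continuous_const

theorem e6_isOpen_PU (q : ℕ) {U : Set ℂ} (hU : IsOpen U) : IsOpen (PU q U) := by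
  have : PU q U = Set.pi Set.univ (fun _ : Fin q => U) := by
    ext z; simp [PU]
  rw [this]
  exact isOpen_set_pi Set.finite_univ fun _ _ => hU

theorem e6_real_mem (s : ℝ) (hs : 0 < s) (x : ℝ) : (x : ℂ) ∈ St s := by
  simpa [St] using hs

theorem e6_cons_mem {q : ℕ} {U : Set ℂ} {a : ℂ} {v : Fin q → ℂ} (ha : a ∈ U) (hv : v ∈ PU q U) :
    (Fin.cons a v : Fin (q + 1) → ℂ) ∈ PU (q + 1) U := by
  intro i
  refine Fin.cases ?_ (fun j => ?_) i
  · simpa using ha
  · simpa using hv j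

/-- path in the second variable -/
theorem e6_hd_cons2 {q : ℕ} (x : ℂ) (v : Fin q → ℂ) (t : ℂ) :
    HasDerivAt (fun t : ℂ => (Fin.cons x (Fin.cons t v : Fin (q + 1) → ℂ) : Fin (q + 2) → ℂ)) (Pi.single 1 1) t := by
  rw [hasDerivAt_pi]
  intro i
  refine Fin.cases ?_ (fun j => ?_) i
  · simpa using hasDerivAt_const t x
  · refine Fin.cases ?_ (fun k => ?_) j
    · simpa using hasDerivAt_id' t
    · have h1 : (Pi.single (1 : Fin (q + 2)) (1 : ℂ) : Fin (q + 2) → ℂ) k.succ.succ = 0 := by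
        rw [Pi.single_apply, if_neg]
        intro h
        have := congrArg Fin.val h
        simp at this
      rw [h1]
      simpa using hasDerivAt_const t (v k)

theorem e6_hd_cons1 {q : ℕ} (v : Fin q → ℂ) (t : ℂ) :
    HasDerivAt (fun t : ℂ => (Fin.cons t v : Fin (q + 1) → ℂ)) (Pi.single 0 1) t := by
  rw [hasDerivAt_pi]
  intro i
  refine Fin.cases ?_ (fun j => ?_) i
  · simpa using hasDerivAt_id' t
  · simpa using hasDerivAt_const t (v j)

theorem e6_hd_ins {q : ℕ} (z : Fin q → ℂ) (i : Fin (q + 1)) (t : ℂ) :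
    HasDerivAt (fun t : ℂ => (i.insertNth t z : Fin (q + 1) → ℂ)) (Pi.single i 1) t := by
  rw [hasDerivAt_pi]
  intro j
  refine Fin.succAboveCases i ?_ (fun k => ?_) j
  · simpa using hasDerivAt_id' t
  · simpa [Pi.single_apply, Fin.succAbove_ne] using hasDerivAt_const t (z k)

/-- doubling the `i`-th variable -/
def e6_D {q : ℕ} (i : Fin q) : (Fin q → ℂ) →L[ℂ] (Fin (q + 1) → ℂ) :=
  ContinuousLinearMap.pi fun j => ContinuousLinearMap.proj (i.predAbove j)

theorem e6_D_apply {q : ℕ} (i : Fin q) (z : Fin q → ℂ) (j : Fin (q + 1)) :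
    e6_D i z j = z (i.predAbove j) := rfl

theorem e6_D_eq {q : ℕ} (i : Fin q) (z : Fin q → ℂ) :
    (i.succ.insertNth (z i) z : Fin (q + 1) → ℂ) = e6_D i z := by
  funext j
  rw [e6_D_apply]
  refine Fin.succAboveCases i.succ ?_ (fun k => ?_) j
  · simp
  · have h := Fin.succ_succAbove_predAbove (p := i) (i := i.succ.succAbove k) (Fin.succAbove_ne _ _)
    have h2 := Fin.succAbove_right_injective h
    rw [h2]; simp

theorem e6_D_mem {q : ℕ} {U : Set ℂ} (i : Fin q) {z : Fin q → ℂ} (hz : z ∈ PU q U) :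
    e6_D i z ∈ PU (q + 1) U := fun _ => hz _

theorem e6_dd_eq {q : ℕ} {U : Set ℂ} (hU : IsOpen U) (F : (Fin (q + 1) → ℂ) → ℂ)
    (hF : DifferentiableOn ℂ F (PU (q + 1) U)) (z : Fin q → ℂ) (hz : z ∈ PU q U) :
    dd q F z = ∑ i : Fin q, (-1 : ℂ) ^ (i : ℕ) * e6_pd i.succ F (e6_D i z) := by
  unfold dd
  refine Finset.sum_congr rfl fun i _ => ?_
  congr 1
  have h := e6_path _ (e6_isOpen_PU (q + 1) hU) F hF (fun t => i.succ.insertNth t z) _ (z i)
    (e6_hd_ins z i.succ (z i)) (by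
      change (i.succ.insertNth (z i) z : Fin (q + 1) → ℂ) ∈ _
      rw [e6_D_eq]; exact e6_D_mem i hz)
  rw [h.deriv]
  rw [e6_D_eq]; rfl

theorem e6_ec_eq {q : ℕ} {s : ℝ} (hs : 0 < s) (F : (Fin (q + 2) → ℂ) → ℂ)
    (hF : DifferentiableOn ℂ F (PU (q + 2) (St s))) (v : Fin q → ℂ) (hv : v ∈ PU q (St s)) :
    ec q F v = ∫ x in (0 : ℝ)..1, e6_pd 1 F (Fin.cons (x : ℂ) (Fin.cons (x : ℂ) v : Fin (q + 1) → ℂ)) := by
  unfold ec
  refine intervalIntegral.integral_congr fun x _ => ?_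
  have hx := e6_real_mem s hs x
  exact (e6_path _ (e6_isOpen_PU (q + 2) (e6_isOpen_St s)) F hF _ _ (x : ℂ)
    (e6_hd_cons2 (x : ℂ) v (x : ℂ)) (e6_cons_mem hx (e6_cons_mem hx hv))).deriv

end

end Pool.Agent.Helper67.DO
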