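import Pool.Agent.Helper51.DO.E6b

/-! # Combinatorics for `E ⌟` -/

namespace Pool.Agent.Helper67.DO

open scoped BigOperators Real Topology
open MeasureTheory

noncomputable section

theorem e6_ext {q : ℕ} (σ : Equiv.Perm (Fin q)) : ∃ τ : Equiv.Perm (Fin (q + 1)), τ 0 = 0 ∧
    (∀ j, τ j.succ = (σ j).succ) ∧ Equiv.Perm.sign τ = Equiv.Perm.sign σ := by
  refine ⟨Equiv.Perm.decomposeFin.symm (0, σ), ?_, ?_, ?_⟩
  · rw [Equiv.Perm.decomposeFin_symm_apply_zero]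
  · intro j
    rw [Equiv.Perm.decomposeFin_symm_apply_succ]; simp
  · rw [Equiv.Perm.decomposeFin.symm_sign]; simp

theorem e6_ext_cons {q : ℕ} (σ : Equiv.Perm (Fin q)) (τ : Equiv.Perm (Fin (q + 1))) (h0 : τ 0 = 0)
    (h1 : ∀ j, τ j.succ = (σ j).succ) (a : ℂ) (v : Fin q → ℂ) :
    (Fin.cons a (fun i => v (σ i)) : Fin (q + 1) → ℂ) = fun i => (Fin.cons a v : Fin (q + 1) → ℂ) (τ i) := by
  funext i
  refine Fin.cases ?_ (fun j => ?_) i
  · rw [h0]; simp
  · rw [h1]; simp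

theorem e6_D_zero {q : ℕ} (a : ℂ) (v : Fin q → ℂ) :
    e6_D 0 (Fin.cons a v : Fin (q + 1) → ℂ) = Fin.cons a (Fin.cons a v : Fin (q + 1) → ℂ) := by
  funext i
  rw [e6_D_apply]
  refine Fin.cases ?_ (fun j => ?_) i
  · simp
  · rw [Fin.predAbove_zero_succ]; simp

theorem e6_D_succ {q : ℕ} (j : Fin q) (a : ℂ) (v : Fin q → ℂ) :
    e6_D j.succ (Fin.cons a v : Fin (q + 1) → ℂ) = Fin.cons a (e6_D j v) := by
  funext i
  rw [e6_D_apply]
  refine Fin.cases ?_ (fun k => ?_) i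
  · simp
  · rw [Fin.succ_predAbove_succ]; simp [e6_D_apply]

theorem e6_cons_zero (q : ℕ) : (Fin.cons 0 (0 : Fin q → ℂ) : Fin (q + 1) → ℂ) = 0 := by
  funext i
  refine Fin.cases ?_ (fun k => ?_) i <;> simp

theorem e6_single_zero (q : ℕ) : (Pi.single 0 1 : Fin (q + 1) → ℂ) = Fin.cons 1 (0 : Fin q → ℂ) := by
  funext i
  refine Fin.cases ?_ (fun k => ?_) i
  · simp
  · simp [Fin.succ_ne_zero]

theorem e6_single_succ {q : ℕ} (j : Fin q) : (Pi.single j.succ 1 : Fin (q + 1) → ℂ) = Fin.cons 0 (Pi.single j 1 : Fin q → ℂ) := by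
  funext i
  refine Fin.cases ?_ (fun k => ?_) i
  · simp [(Fin.succ_ne_zero _).symm]
  · simp [Pi.single_apply]

theorem e6_single_one (q : ℕ) : (Pi.single 1 1 : Fin (q + 2) → ℂ) = Fin.cons 0 (Fin.cons 1 (0 : Fin q → ℂ) : Fin (q + 1) → ℂ) := by
  rw [← e6_single_zero]
  exact e6_single_succ 0

theorem e6_single_two (q : ℕ) : (Pi.single 2 1 : Fin (q + 3) → ℂ)
    = Fin.cons 0 (Fin.cons 0 (Fin.cons 1 (0 : Fin q → ℂ) : Fin (q + 1) → ℂ) : Fin (q + 2) → ℂ) := by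
  rw [← e6_single_one]
  exact e6_single_succ 1

theorem e6_D0_single (q : ℕ) : e6_D 0 (Pi.single 1 1 : Fin (q + 2) → ℂ) = Pi.single 2 1 := by
  rw [e6_single_one, e6_D_zero, e6_single_two]

theorem e6_D1_single (q : ℕ) : e6_D 1 (Pi.single 1 1 : Fin (q + 2) → ℂ) = Pi.single 1 1 + Pi.single 2 1 := by
  rw [e6_single_one, e6_single_two]
  have h : (1 : Fin (q + 2)) = Fin.succ 0 := rfl
  rw [h, e6_D_succ, e6_D_zero, e6_single_one]
  funext i
  refine Fin.cases ?_ (fun j => ?_) i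
  · simp
  · refine Fin.cases ?_ (fun k => ?_) j
    · simp
    · simp

theorem e6_Dss_single {q : ℕ} (j : Fin q) : e6_D j.succ.succ (Pi.single 1 1 : Fin (q + 2) → ℂ) = Pi.single 1 1 := by
  rw [e6_single_one, e6_single_one, e6_D_succ, e6_D_succ, map_zero]

/-- adding a constant first coordinate to a path -/
theorem e6_hd_cons {q : ℕ} (x : ℂ) (p : ℂ → Fin q → ℂ) (p' : Fin q → ℂ) (t : ℂ) (hp : HasDerivAt p p' t) :
    HasDerivAt (fun t : ℂ => (Fin.cons x (p t) : Fin (q + 1) → ℂ)) (Fin.cons 0 p') t := by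
  rw [hasDerivAt_pi] at hp ⊢
  intro i
  refine Fin.cases ?_ (fun j => ?_) i
  · simpa using hasDerivAt_const t x
  · simpa using hp j

/-- path in the third variable -/
theorem e6_hd_cons3 {q : ℕ} (x y : ℂ) (v : Fin q → ℂ) (t : ℂ) :
    HasDerivAt (fun t : ℂ => (Fin.cons x (Fin.cons y (Fin.cons t v : Fin (q + 1) → ℂ) : Fin (q + 2) → ℂ) : Fin (q + 3) → ℂ))
      (Pi.single 2 1) t := by
  have h : (Pi.single 2 1 : Fin (q + 3) → ℂ) = Fin.cons 0 (Pi.single 1 1 : Fin (q + 2) → ℂ) := e6_single_succ 1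
  rw [h]
  exact e6_hd_cons x _ _ t (e6_hd_cons2 y v t)

theorem e6_removeNth_succ {q : ℕ} (j : Fin (q + 1)) (a : ℂ) (v : Fin (q + 1) → ℂ) :
    (j.succ.removeNth (Fin.cons a v : Fin (q + 2) → ℂ) : Fin (q + 1) → ℂ) = Fin.cons a (j.removeNth v) := by
  funext i
  refine Fin.cases ?_ (fun k => ?_) i
  · simp [Fin.removeNth]
  · simp [Fin.removeNth]

theorem e6_removeNth_one {q : ℕ} (a b : ℂ) (v : Fin q → ℂ) :
    ((1 : Fin (q + 2)).removeNth (Fin.cons a (Fin.cons b v : Fin (q + 1) → ℂ) : Fin (q + 2) → ℂ) : Fin (q + 1) → ℂ)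
      = Fin.cons a v := by
  have h : (1 : Fin (q + 2)) = Fin.succ 0 := rfl
  rw [h, e6_removeNth_succ]
  simp

/-- an alternating function vanishes at points with two equal coordinates -/
theorem e6_alt_zero {q : ℕ} {U : Set ℂ} {F : (Fin q → ℂ) → ℂ} (hF : BO q U F) (z : Fin q → ℂ)
    (hz : z ∈ PU q U) (i j : Fin q) (hij : i ≠ j) (h : z i = z j) : F z = 0 := by
  have h1 := hF.alt z hz (Equiv.swap i j)
  have h2 : (fun k => z (Equiv.swap i j k)) = z := by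
    funext k
    by_cases hk : k = i
    · subst hk; simp [h]
    by_cases hk' : k = j
    · subst hk'; simp [h]
    rw [Equiv.swap_apply_of_ne_of_ne hk hk']
  rw [h2, Equiv.Perm.sign_swap hij] at h1
  simp at h1
  have h3 : F z + F z = 0 := by
    nth_rewrite 1 [h1]; ring
  have h4 : (2 : ℂ) * F z = 0 := by rw [two_mul]; exact h3
  simpa using h4

end

end Pool.Agent.Helper67.DO
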